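import Pool.Agent.W363.JQ.Stm
import Pool.Agent.Helper114.RMT

/-!
# JQ-DISC: attracting fixed point and Riemann map
-/

set_option autoImplicit false

open Filter Topology Set Metric

namespace Pool.Agent.W571.JQ

open Pool.Agent.W363.JQ Pool.Agent.Helper114.RMT

lemma bl_neg_bl {c w : ℂ} (hc : ‖c‖ < 1) (hw : ‖w‖ < 1) : bl (-c) (bl c w) = w := by
  have h1 := bl_den_ne hc hw
  have h2 := bl_den_ne hc hc
  have hlt := bl_norm_lt hc hw
  have h3 := bl_den_ne (c := -c) (by simpa using hc) hlt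
  have hb : bl c w * (1 - (starRingEnd ℂ) c * w) = w - c := by
    unfold bl
    exact div_mul_cancel₀ _ h1
  rw [bl, div_eq_iff h3, map_neg]
  apply mul_right_cancel₀ h1
  linear_combination (1 - w * (starRingEnd ℂ) c) * hb

lemma bl_bl_neg {c w : ℂ} (hc : ‖c‖ < 1) (hw : ‖w‖ < 1) : bl c (bl (-c) w) = w := by
  have h := bl_neg_bl (c := -c) (w := w) (by simpa using hc) hw
  rwa [neg_neg] at h

lemma bl_diff {c : ℂ} (hc : ‖c‖ < 1) : DifferentiableOn ℂ (bl c) (ball 0 1) := by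
  intro w hw
  rw [mem_ball_zero_iff] at hw
  exact (bl_hasDerivAt hc hw).differentiableAt.differentiableWithinAt

lemma bl_maps {c : ℂ} (hc : ‖c‖ < 1) : MapsTo (bl c) (ball 0 1) (ball 0 1) := by
  intro w hw
  rw [mem_ball_zero_iff] at hw ⊢
  exact bl_norm_lt hc hw

lemma ss {G : ℂ → ℂ} (hd : DifferentiableOn ℂ G (ball 0 1)) (hm : MapsTo G (ball 0 1) (ball 0 1))
    (h0 : G 0 = 0) (hn : ¬ InjOn G (ball 0 1)) {w : ℂ} (hw : w ∈ ball (0 : ℂ) 1) :
    ‖dslope G 0 w‖ < 1 := by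
  have hm' : MapsTo G (ball 0 1) (closedBall (G 0) 1) := by
    rw [h0]
    exact hm.mono_right ball_subset_closedBall
  have h1 := Complex.norm_dslope_le_div_of_mapsTo_ball hd hm' hw
  rw [div_one] at h1
  refine lt_of_le_of_ne h1 fun heq => hn ?_
  have h2 := Complex.affine_of_mapsTo_ball_of_norm_dslope_eq_div hd hm' hw (by rw [heq, div_one])
  intro a ha b hb hab
  have ea := h2 ha
  have eb := h2 hb
  simp only [sub_zero, smul_eq_mul] at ea eb
  rw [ea, eb] at hab
  have hq : dslope G 0 w ≠ 0 := by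
    intro h
    rw [h, norm_zero] at heq
    exact zero_ne_one heq
  exact mul_right_cancel₀ hq (add_left_cancel hab)

lemma eq_dslope {G : ℂ → ℂ} (h0 : G 0 = 0) (w : ℂ) : G w = w * dslope G 0 w := by
  have h := sub_smul_dslope G 0 w
  rw [h0, sub_zero, sub_zero, smul_eq_mul] at h
  exact h.symm

/-- strict form of the Schwarz-Pick lemma -/
lemma sp {F : ℂ → ℂ} (hd : DifferentiableOn ℂ F (ball 0 1)) (hm : MapsTo F (ball 0 1) (ball 0 1))
    (hn : ¬ InjOn F (ball 0 1)) {u v : ℂ} (hu : u ∈ ball (0 : ℂ) 1) (hv : v ∈ ball (0 : ℂ) 1)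
    (hne : u ≠ v) : ‖bl (F v) (F u)‖ < ‖bl v u‖ := by
  have hu' := mem_ball_zero_iff.1 hu
  have hv' := mem_ball_zero_iff.1 hv
  have hnv : ‖-v‖ < 1 := by simpa using hv'
  have hFv := mem_ball_zero_iff.1 (hm hv)
  set B : ℂ → ℂ := fun w => bl (F v) (F (bl (-v) w)) with hB
  have hBd : DifferentiableOn ℂ B (ball 0 1) :=
    (bl_diff hFv).comp (hd.comp (bl_diff hnv) (bl_maps hnv)) (hm.comp (bl_maps hnv))
  have hBm : MapsTo B (ball 0 1) (ball 0 1) := (bl_maps hFv).comp (hm.comp (bl_maps hnv))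
  have hB0 : B 0 = 0 := by
    simp only [hB, bl_zero, neg_neg, bl_self]
  have hBb : ∀ a ∈ ball (0 : ℂ) 1, B (bl v a) = bl (F v) (F a) := by
    intro a ha
    simp only [hB]
    rw [bl_neg_bl hv' (mem_ball_zero_iff.1 ha)]
  have hBn : ¬ InjOn B (ball 0 1) := by
    intro hinj
    apply hn
    intro a ha b hb hab
    have h1 : bl v a = bl v b := by
      apply hinj (bl_maps hv' ha) (bl_maps hv' hb)
      rw [hBb a ha, hBb b hb, hab]
    exact bl_inj hv' (mem_ball_zero_iff.1 ha) (mem_ball_zero_iff.1 hb) h1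
  rw [← hBb u hu, eq_dslope hB0, norm_mul]
  have h1 := ss hBd hBm hB0 hBn (bl_maps hv' hu)
  have h2 : 0 < ‖bl v u‖ := by
    rw [norm_pos_iff]
    intro h
    exact hne (bl_eq_zero hv' hu' h)
  nlinarith

lemma contr1 {f : Polynomial ℂ} {r : ℝ} (hB : Bas f) (hE : Ex f r) {z : ℂ}
    (h : infDist (f.eval z) (JJ f) < r) : infDist z (JJ f) ≤ infDist (f.eval z) (JJ f) / 2 := by
  obtain ⟨hr, hE⟩ := hE
  obtain ⟨x, hx, hd⟩ := hB.jcpt.exists_infDist_eq_dist hB.jne (f.eval z)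
  rw [hd] at h ⊢
  obtain ⟨g, -, hg2, hg3, hg4⟩ := hE x hx (f.eval z) h z rfl
  have h1 := hg4 _ (show f.eval z ∈ ball x r from h) x (mem_ball_self hr)
  rw [hg2] at h1
  have h2 : g x ∈ JJ f := by
    rw [← hB.invJ, hg3 x (mem_ball_self hr)]
    exact hx
  exact (infDist_le_dist_of_mem h2).trans h1

theorem disc0 (h1 : S_rmt) (h2 : S_domU) : S_disc := by
  intro f r U hB hD
  have hE := hD.ex
  have hr : 0 < r := hE.1
  obtain ⟨z0, hz0⟩ := hD.co.nonempty
  have hbd : Bornology.IsBounded U := hB.cpt.isBounded.subset hD.sub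
  obtain ⟨ψ0, χ0, d1, d2, -, d3, d4⟩ := h1 U z0 hD.op hD.co hbd
    (h2 f hB U hD.op hD.co hD.sub hD.fr) hz0
  have hUJ : ∀ z ∈ U, z ∉ JJ f := by
    intro z hz hzJ
    have h3 : z ∈ interior (KK f) := interior_maximal hD.sub hD.op hz
    exact hzJ.2 h3
  have hclU : ∀ z ∈ closure U, z ∉ JJ f → z ∈ U := by
    intro z hz hzJ
    by_contra hzU
    apply hzJ
    apply hD.fr
    refine ⟨hz, ?_⟩
    rwa [hD.op.interior_eq]
  -- the compact invariant set
  set Q : Set ℂ := closure U ∩ {z | r / 2 ≤ infDist z (JJ f)} with hQ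
  have hQc : IsCompact Q := by
    refine hbd.isCompact_closure.inter_right ?_
    exact isClosed_le continuous_const (continuous_infDist_pt _)
  have hQU : Q ⊆ U := by
    intro z hz
    refine hclU z hz.1 fun hzJ => ?_
    have h3 : infDist z (JJ f) = 0 := infDist_zero_of_mem hzJ
    have h4 : r / 2 ≤ infDist z (JJ f) := hz.2
    linarith
  have hQf : ∀ z ∈ Q, f.eval z ∈ Q := by
    intro z hz
    refine ⟨subset_closure (hD.map z (hQU hz)), ?_⟩
    by_contra hlt
    have hlt' : infDist (f.eval z) (JJ f) < r / 2 := not_le.1 hlt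
    have h3 := contr1 hB hE (z := z) (by linarith)
    have h4 : r / 2 ≤ infDist z (JJ f) := hz.2
    linarith
  have hQne : Q.Nonempty := by
    by_contra hemp
    rw [not_nonempty_iff_eq_empty] at hemp
    have hin : ∀ z ∈ U, infDist z (JJ f) < r / 2 := by
      intro z hz
      by_contra hle
      have : z ∈ Q := ⟨subset_closure hz, not_lt.1 hle⟩
      rw [hemp] at this
      exact this
    have hdec : ∀ n : ℕ, ∀ z ∈ U, infDist z (JJ f) ≤ r / 2 / 2 ^ n := by
      intro n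
      induction n with
      | zero =>
        intro z hz
        simpa using (hin z hz).le
      | succ n ih =>
        intro z hz
        have h3 := hin _ (hD.map z hz)
        have h4 := contr1 hB hE (z := z) (by linarith)
        have h5 := ih _ (hD.map z hz)
        calc infDist z (JJ f) ≤ infDist (f.eval z) (JJ f) / 2 := h4
          _ ≤ (r / 2 / 2 ^ n) / 2 := by linarith
          _ = r / 2 / 2 ^ (n + 1) := by rw [pow_succ]; field_simp
    have hlim : Tendsto (fun n : ℕ => r / 2 / 2 ^ n) atTop (𝓝 0) := by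
      have h3 := tendsto_pow_atTop_nhds_zero_of_lt_one (r := (1 / 2 : ℝ)) (by norm_num) (by norm_num)
      have h4 := h3.const_mul (r / 2)
      rw [mul_zero] at h4
      refine h4.congr fun n => ?_
      rw [one_div, inv_pow]
      rfl
    have h3 : infDist z0 (JJ f) ≤ 0 := ge_of_tendsto' hlim fun n => hdec n z0 hz0
    have h4 : infDist z0 (JJ f) = 0 := le_antisymm h3 infDist_nonneg
    have h5 : z0 ∈ JJ f := (hB.jcpt.isClosed.mem_iff_infDist_zero hB.jne).2 h4
    exact hUJ z0 hz0 h5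
  -- the map of the disc
  set F : ℂ → ℂ := fun w => ψ0 (f.eval (χ0 w)) with hF
  have hχm : MapsTo χ0 (ball 0 1) U := fun w hw => (d4 w hw).1
  have hψm : MapsTo ψ0 U (ball 0 1) := fun z hz => (d3 z hz).1
  have hFd : DifferentiableOn ℂ F (ball 0 1) := by
    refine d1.comp (f.differentiable.comp_differentiableOn d2) ?_
    intro w hw
    exact hD.map _ (hχm hw)
  have hFm : MapsTo F (ball 0 1) (ball 0 1) := fun w hw => hψm (hD.map _ (hχm hw))
  have hFn : ¬ InjOn F (ball 0 1) := by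
    intro hinj
    apply hD.ninj
    intro a ha b hb hab
    have h3 : ψ0 a = ψ0 b := by
      apply hinj (hψm ha) (hψm hb)
      simp only [hF]
      rw [(d3 a ha).2, (d3 b hb).2]
      exact congrArg ψ0 hab
    rw [← (d3 a ha).2, ← (d3 b hb).2, h3]
  set C : Set ℂ := ψ0 '' Q with hC
  have hCc : IsCompact C := hQc.image_of_continuousOn (d1.continuousOn.mono hQU)
  have hCb : C ⊆ ball 0 1 := by
    rintro _ ⟨z, hz, rfl⟩
    exact hψm (hQU hz)
  have hCF : ∀ u ∈ C, F u ∈ C := by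
    rintro _ ⟨z, hz, rfl⟩
    simp only [hF]
    rw [(d3 z (hQU hz)).2]
    exact ⟨_, hQf z hz, rfl⟩
  have hcont : ContinuousOn (fun u => ‖bl u (F u)‖) C := by
    refine ContinuousOn.norm ?_
    unfold bl
    refine ContinuousOn.div ?_ ?_ ?_
    · exact (hFd.continuousOn.mono hCb).sub continuousOn_id
    · refine continuousOn_const.sub (ContinuousOn.mul ?_ (hFd.continuousOn.mono hCb))
      exact Complex.continuous_conj.continuousOn
    · intro u hu
      exact bl_den_ne (mem_ball_zero_iff.1 (hCb hu)) (mem_ball_zero_iff.1 (hFm (hCb hu)))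
  obtain ⟨u0, hu0, hmin⟩ := hCc.exists_isMinOn (hQne.image _) hcont
  have hu0b := hCb hu0
  have hu0' := mem_ball_zero_iff.1 hu0b
  have hnu0 : ‖-u0‖ < 1 := by simpa using hu0'
  have hfix : F u0 = u0 := by
    by_contra hne
    have h3 := sp hFd hFm hFn (hFm hu0b) hu0b hne
    have h4 := hmin (hCF u0 hu0)
    simp only [mem_ofPred_eq] at h4
    linarith
  set p := χ0 u0 with hp
  have hpU : p ∈ U := hχm hu0b
  have hfp : f.eval p = p := by
    have h3 : ψ0 (f.eval p) = ψ0 p := by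
      have : ψ0 (f.eval p) = F u0 := rfl
      rw [this, hfix, hp, (d4 u0 hu0b).2]
    rw [← (d3 _ (hD.map p hpU)).2, h3, (d3 p hpU).2]
  have hψ0p : ψ0 p = u0 := (d4 u0 hu0b).2
  set ψ : ℂ → ℂ := fun z => bl u0 (ψ0 z) with hψ
  set χ : ℂ → ℂ := fun w => χ0 (bl (-u0) w) with hχ
  have hψp : ψ p = 0 := by
    simp only [hψ]
    rw [hψ0p, bl_self]
  have hψd : DifferentiableOn ℂ ψ U := (bl_diff hu0').comp d1 hψm
  have hχd : DifferentiableOn ℂ χ (ball 0 1) := d2.comp (bl_diff hnu0) (bl_maps hnu0)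
  have mψ : ∀ z ∈ U, ψ z ∈ ball (0 : ℂ) 1 ∧ χ (ψ z) = z := by
    intro z hz
    refine ⟨bl_maps hu0' (hψm hz), ?_⟩
    simp only [hψ, hχ]
    rw [bl_neg_bl hu0' (mem_ball_zero_iff.1 (hψm hz)), (d3 z hz).2]
  have mχ : ∀ w ∈ ball (0 : ℂ) 1, χ w ∈ U ∧ ψ (χ w) = w := by
    intro w hw
    refine ⟨hχm (bl_maps hnu0 hw), ?_⟩
    simp only [hψ, hχ]
    rw [(d4 _ (bl_maps hnu0 hw)).2, bl_bl_neg hu0' (mem_ball_zero_iff.1 hw)]
  have hχ0 : χ 0 = p := by
    rw [← hψp, (mψ p hpU).2]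
  -- contraction
  set G : ℂ → ℂ := fun w => ψ (f.eval (χ w)) with hG
  have hGd : DifferentiableOn ℂ G (ball 0 1) := by
    refine hψd.comp (f.differentiable.comp_differentiableOn hχd) ?_
    intro w hw
    exact hD.map _ (mχ w hw).1
  have hGm : MapsTo G (ball 0 1) (ball 0 1) := fun w hw => (mψ _ (hD.map _ (mχ w hw).1)).1
  have hG0 : G 0 = 0 := by
    simp only [hG]
    rw [hχ0, hfp, hψp]
  have hGn : ¬ InjOn G (ball 0 1) := by
    intro hinj
    apply hD.ninj
    intro a ha b hb hab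
    have h3 : ψ a = ψ b := by
      apply hinj (mψ a ha).1 (mψ b hb).1
      simp only [hG]
      rw [(mψ a ha).2, (mψ b hb).2]
      exact congrArg ψ hab
    rw [← (mψ a ha).2, ← (mψ b hb).2, h3]
  refine ⟨p, ψ, χ, hpU, hψd, hχd, hψp, mψ, mχ, ?_⟩
  intro ρ hρ
  rcases lt_or_ge ρ 0 with hneg | hpos
  · refine ⟨0, le_rfl, one_pos, fun z hz hle => ?_⟩
    have := norm_nonneg (ψ z)
    linarith
  · have hsub : closedBall (0 : ℂ) ρ ⊆ ball 0 1 := closedBall_subset_ball hρ
    have hqd : DifferentiableOn ℂ (dslope G 0) (ball 0 1) :=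
      (Complex.differentiableOn_dslope (isOpen_ball.mem_nhds (mem_ball_self one_pos))).2 hGd
    have hqc : ContinuousOn (fun w => ‖dslope G 0 w‖) (closedBall 0 ρ) :=
      (hqd.continuousOn.mono hsub).norm
    obtain ⟨w1, hw1, hmax⟩ := (isCompact_closedBall (0 : ℂ) ρ).exists_isMaxOn
      ⟨0, mem_closedBall_self hpos⟩ hqc
    refine ⟨‖dslope G 0 w1‖, norm_nonneg _, ss hGd hGm hG0 hGn (hsub hw1), ?_⟩
    intro z hz hle
    have h3 : ψ (f.eval z) = G (ψ z) := by
      simp only [hG]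
      rw [(mψ z hz).2]
    rw [h3, eq_dslope hG0 (ψ z), norm_mul, mul_comm]
    refine mul_le_mul_of_nonneg_right ?_ (norm_nonneg _)
    exact hmax (mem_closedBall_zero_iff.2 hle)

end Pool.Agent.W571.JQ
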