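import Pool.Agent.W363.JQ.Stm

/-!
# JQ-EXN: branches of iterates, uniqueness of lifts
-/

set_option autoImplicit false

open Filter Topology Set Metric

namespace Pool.Agent.W571.JQ

open Pool.Agent.W363.JQ

theorem exn : S_exn := by
  intro f r hB hE n
  obtain ⟨hr, hE⟩ := hE
  refine ⟨hr, ?_⟩
  induction n with
  | zero =>
    intro x hx w hw z hz
    refine ⟨id, differentiableOn_id, ?_, hx, fun u _ => rfl, fun u _ v _ => ?_⟩
    · exact hz.symm
    · simp
  | succ n ih =>
    intro x hx w hw z hz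
    have hz' : it f n (f.eval z) = w := by
      rw [← hz]
      exact (Function.iterate_succ_apply _ _ _).symm
    obtain ⟨G, hG1, hG2, hG3, hG4, hG5⟩ := ih x hx w hw (f.eval z) hz'
    have hx0 : x ∈ ball x r := mem_ball_self hr
    have hmaps : ∀ u ∈ ball x r, G u ∈ ball (G x) r := by
      intro u hu
      rw [mem_ball]
      refine lt_of_le_of_lt (hG5 u hu x hx0) ?_
      rw [mem_ball] at hu
      refine lt_of_le_of_lt (div_le_self dist_nonneg (one_le_pow₀ (by norm_num))) hu
    obtain ⟨g, hg1, hg2, hg3, hg4⟩ := hE (G x) hG3 (f.eval z)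
      (by rw [← hG2]; exact hmaps w hw) z rfl
    refine ⟨g ∘ G, hg1.comp hG1 hmaps, ?_, ?_, ?_, ?_⟩
    · rw [Function.comp_apply, hG2, hg2]
    · rw [Function.comp_apply, ← hB.invJ, hg3 _ (hmaps x hx0)]
      exact hG3
    · intro u hu
      have : it f (n + 1) ((g ∘ G) u) = it f n (f.eval (g (G u))) :=
        Function.iterate_succ_apply _ _ _
      rw [this, hg3 _ (hmaps u hu), hG4 u hu]
    · intro u hu v hv
      have h1 := hg4 _ (hmaps u hu) _ (hmaps v hv)
      have h2 := hG5 u hu v hv
      calc dist (g (G u)) (g (G v)) ≤ dist (G u) (G v) / 2 := h1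
        _ ≤ (dist u v / 2 ^ n) / 2 := by linarith
        _ = dist u v / 2 ^ (n + 1) := by rw [pow_succ]; field_simp

lemma it_contDiff (f : Polynomial ℂ) (n : ℕ) : ContDiff ℂ 1 (it f n) := by
  induction n with
  | zero => exact contDiff_id
  | succ n ih =>
    have : it f (n + 1) = it f n ∘ fun z => f.eval z := by
      funext z
      exact Function.iterate_succ_apply _ _ _
    rw [this]
    refine ih.comp ?_
    have h1 := f.contDiff_aeval (𝕜 := ℂ) (R := ℂ) 1
    simpa using h1

/-- the iterate is locally injective over the neighbourhood of the Julia set -/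
lemma locinj (h : S_exn) {f : Polynomial ℂ} {r : ℝ} (hB : Bas f) (hE : Ex f r) (n : ℕ) (z : ℂ)
    (hz : ∃ x ∈ JJ f, dist (it f n z) x < r) :
    ∃ L : ℂ → ℂ, ∀ᶠ y in 𝓝 z, L (it f n y) = y := by
  obtain ⟨x, hx, hd⟩ := hz
  obtain ⟨-, hN⟩ := h f r hB hE n
  obtain ⟨g, hg1, hg2, -, hg4, -⟩ := hN x hx (it f n z) hd z rfl
  have hdF : HasDerivAt (it f n) (deriv (it f n) z) z :=
    ((it_contDiff f n).differentiable (by norm_num) z).hasDerivAt
  have hdg : HasDerivAt g (deriv g (it f n z)) (it f n z) :=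
    ((hg1 _ hd).differentiableAt (isOpen_ball.mem_nhds hd)).hasDerivAt
  have hcomp : HasDerivAt (fun u => it f n (g u)) (deriv (it f n) z * deriv g (it f n z))
      (it f n z) := by
    have h1 : HasDerivAt (it f n) (deriv (it f n) z) (g (it f n z)) := by
      rw [hg2]; exact hdF
    exact h1.comp _ hdg
  have hid : HasDerivAt (fun u => it f n (g u)) 1 (it f n z) := by
    refine (hasDerivAt_id _).congr_of_eventuallyEq ?_
    filter_upwards [isOpen_ball.mem_nhds hd] with u hu
    exact hg4 u hu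
  have hne : deriv (it f n) z ≠ 0 := by
    intro h0
    have := hcomp.unique hid
    rw [h0, zero_mul] at this
    exact zero_ne_one this
  have hs : HasStrictDerivAt (it f n) (deriv (it f n) z) z :=
    (it_contDiff f n).contDiffAt.hasStrictDerivAt' hdF (by norm_num)
  have hs' := hs.hasStrictFDerivAt_equiv hne
  exact ⟨_, hs'.eventually_left_inverse⟩

theorem uniq (h : S_exn) : S_uniq := by
  intro f r hB hE n S γ γ' hS hγ hγ' heq hnear t₀ ht₀ h0 t ht
  have : PreconnectedSpace S := isPreconnected_iff_preconnectedSpace.1 hS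
  set E : Set S := {t | γ t = γ' t} with hEdef
  have hc : Continuous fun t : S => γ t := hγ.domRestrict
  have hc' : Continuous fun t : S => γ' t := hγ'.domRestrict
  have hcl : IsClosed E := isClosed_eq hc hc'
  have hop : IsOpen E := by
    rw [isOpen_iff_mem_nhds]
    intro t ht
    obtain ⟨L, hL⟩ := locinj h hB hE n (γ t) (hnear t t.2)
    have ht' : γ t = γ' t := ht
    have h1 : ∀ᶠ s : S in 𝓝 t, L (it f n (γ s)) = γ s := (hc.tendsto t).eventually hL
    rw [ht'] at hL
    have h2 : ∀ᶠ s : S in 𝓝 t, L (it f n (γ' s)) = γ' s := (hc'.tendsto t).eventually hL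
    filter_upwards [h1, h2] with s hs1 hs2
    change γ s = γ' s
    rw [← hs1, ← hs2, heq s s.2]
  have huniv : E = univ := by
    refine (IsClopen.eq_univ ⟨hcl, hop⟩ ⟨⟨t₀, ht₀⟩, h0⟩)
  have : (⟨t, ht⟩ : S) ∈ E := by rw [huniv]; trivial
  exact this

end Pool.Agent.W571.JQ
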